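import Mathlib

open Filter Topology Set

namespace Pool.Agent.Results.MP_0aa9c3_an.IterateDifferences

/-- `T : ℝ → ℝ` is nonexpansive. -/
def Nonexpansive (T : ℝ → ℝ) : Prop := ∀ x y : ℝ, |T x - T y| ≤ |x - y|

/-- `v` is the metric projection of `0` onto the closure of the range of `Id - T`: the point of
smallest absolute value of that closed set. -/
def IsMinimalDisplacement (T : ℝ → ℝ) (v : ℝ) : Prop :=
  v ∈ closure (range fun x => x - T x) ∧ ∀ w ∈ closure (range fun x => x - T x), |v| ≤ |w|

/-- a sequence with convergent absolute values and small steps converges -/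
lemma conv_of_abs {D : ℕ → ℝ} {d : ℝ} (h1 : Tendsto (fun n => |D n|) atTop (𝓝 d))
    (h2 : Tendsto (fun n => D n - D (n + 1)) atTop (𝓝 0)) :
    ∃ l, Tendsto D atTop (𝓝 l) := by
  have hd0 : 0 ≤ d := ge_of_tendsto' h1 fun n => abs_nonneg _
  rcases hd0.eq_or_lt with hd | hd
  · exact ⟨0, by rw [tendsto_zero_iff_abs_tendsto_zero]; rw [← hd] at h1; exact h1⟩
  · have e1 : ∀ᶠ n in atTop, d / 2 < |D n| := h1.eventually (lt_mem_nhds (by linarith))
    have e2 : ∀ᶠ n in atTop, |D n - D (n + 1)| < d / 2 := by
      have := (h2.abs).eventually (gt_mem_nhds (show |(0:ℝ)| < d / 2 by rw [abs_zero]; linarith))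
      exact this
    obtain ⟨N, hN⟩ := (e1.and e2).exists_forall_of_atTop
    by_cases hs : 0 < D N
    · have h3 : ∀ n, N ≤ n → 0 < D n := by
        intro n hn
        induction n, hn using Nat.le_induction with
        | base => exact hs
        | succ n hn ih =>
          obtain ⟨a1, a2⟩ := hN n hn
          rw [abs_of_pos ih] at a1
          rw [abs_lt] at a2
          linarith [a2.1, a2.2]
      refine ⟨d, h1.congr' ?_⟩
      filter_upwards [eventually_ge_atTop N] with n hn
      exact abs_of_pos (h3 n hn)
    · have h3 : ∀ n, N ≤ n → D n < 0 := by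
        intro n hn
        induction n, hn using Nat.le_induction with
        | base =>
          have := (hN N le_rfl).1
          rcases lt_or_eq_of_le (not_lt.mp hs) with h | h
          · exact h
          · rw [h, abs_zero] at this; linarith
        | succ n hn ih =>
          obtain ⟨a1, a2⟩ := hN n hn
          rw [abs_of_neg ih] at a1
          rw [abs_lt] at a2
          linarith [a2.1, a2.2]
      refine ⟨-d, (h1.neg).congr' ?_⟩
      filter_upwards [eventually_ge_atTop N] with n hn
      rw [abs_of_neg (h3 n hn), neg_neg]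

/-- a nonincreasing nonnegative sequence converges -/
lemma conv_of_anti {s : ℕ → ℝ} (h0 : ∀ n, 0 ≤ s n) (h1 : ∀ n, s (n + 1) ≤ s n) :
    ∃ l, Tendsto s atTop (𝓝 l) :=
  ⟨_, tendsto_atTop_ciInf (antitone_nat_of_succ_le h1) ⟨0, by rintro _ ⟨n, rfl⟩; exact h0 n⟩⟩

/-- **Positive answer to Q1.** If `T : ℝ → ℝ` is nonexpansive and its minimal displacement `v` is
not zero, then the sequence `T^n x - T^n y` converges for all `x, y`, whether or not `v + T` has a
fixed point. -/
theorem result (T : ℝ → ℝ) (hT : Nonexpansive T) (v : ℝ) (hv : IsMinimalDisplacement T v)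
    (hv0 : v ≠ 0) (x y : ℝ) :
    ∃ l : ℝ, Tendsto (fun n : ℕ => T^[n] x - T^[n] y) atTop (𝓝 l) := by
  have hcont : Continuous T := by
    have : LipschitzWith 1 T := LipschitzWith.of_dist_le_mul fun a b => by
      rw [Real.dist_eq, Real.dist_eq, NNReal.coe_one, one_mul]; exact hT a b
    exact this.continuous
  have hne : ∀ z, z - T z ≠ 0 := by
    intro z hz
    have h1 := hv.2 0 (by rw [← hz]; exact subset_closure ⟨z, rfl⟩)
    rw [abs_zero] at h1
    exact hv0 (abs_eq_zero.mp (le_antisymm h1 (abs_nonneg _)))
  -- constant sign of the displacement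
  have hsign : (∀ z, 0 < z - T z) ∨ ∀ z, z - T z < 0 := by
    by_contra hcon
    push Not at hcon
    obtain ⟨⟨a, ha⟩, b, hb⟩ := hcon
    have hpre : IsPreconnected (range fun z => z - T z) :=
      isPreconnected_range (continuous_id.sub hcont)
    have h1 : (0:ℝ) ∈ range fun z => z - T z :=
      hpre.ordConnected.out ⟨a, rfl⟩ ⟨b, rfl⟩ ⟨ha, hb⟩
    obtain ⟨z, hz⟩ := h1
    exact hne z hz
  -- steps along an orbit
  have hstep : ∀ z : ℝ, ∃ l, Tendsto (fun n : ℕ => T^[n] z - T^[n + 1] z) atTop (𝓝 l) := by
    intro z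
    have habs : ∀ n : ℕ, |T^[n + 1] z - T^[n + 2] z| ≤ |T^[n] z - T^[n + 1] z| := by
      intro n
      have := hT (T^[n] z) (T^[n + 1] z)
      rw [← Function.iterate_succ_apply' T n z, ← Function.iterate_succ_apply' T (n + 1) z] at this
      exact this
    rcases hsign with h | h
    · have hp : ∀ n : ℕ, 0 < T^[n] z - T^[n + 1] z := fun n => by
        rw [Function.iterate_succ_apply' T n z]; exact h _
      refine conv_of_anti (fun n => (hp n).le) fun n => ?_
      have := habs n
      rwa [abs_of_pos (hp n), abs_of_pos (hp (n + 1))] at this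
    · have hp : ∀ n : ℕ, T^[n] z - T^[n + 1] z < 0 := fun n => by
        rw [Function.iterate_succ_apply' T n z]; exact h _
      obtain ⟨l, hl⟩ := conv_of_anti (s := fun n => -(T^[n] z - T^[n + 1] z))
        (fun n => by have := hp n; linarith) (fun n => by
          have := habs n
          rwa [abs_of_neg (hp n), abs_of_neg (hp (n + 1))] at this)
      refine ⟨-l, ?_⟩
      have := hl.neg
      simpa using this
  set D : ℕ → ℝ := fun n => T^[n] x - T^[n] y with hD
  have hDabs : ∀ n, |D (n + 1)| ≤ |D n| := by
    intro n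
    have := hT (T^[n] x) (T^[n] y)
    rw [← Function.iterate_succ_apply' T n x, ← Function.iterate_succ_apply' T n y] at this
    exact this
  obtain ⟨d, hd⟩ := conv_of_anti (s := fun n => |D n|) (fun n => abs_nonneg _) hDabs
  obtain ⟨s, hs⟩ := hstep x
  obtain ⟨t, ht⟩ := hstep y
  have hst : Tendsto (fun n => D n - D (n + 1)) atTop (𝓝 (s - t)) := by
    refine (hs.sub ht).congr fun n => ?_
    simp only [hD]; ring
  have hc0 : s - t = 0 := by
    have h1 := hst.cesaro
    have h2 : Tendsto (fun n : ℕ => (n⁻¹ : ℝ) * ∑ i ∈ Finset.range n, (D i - D (i + 1))) atTop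
        (𝓝 0) := by
      have h3 : ∀ n : ℕ, ∑ i ∈ Finset.range n, (D i - D (i + 1)) = D 0 - D n := by
        intro n
        induction n with
        | zero => simp
        | succ n ih => rw [Finset.sum_range_succ, ih]; ring
      have hb : ∀ n, |D n| ≤ |D 0| := by
        intro n
        induction n with
        | zero => exact le_rfl
        | succ n ih => exact (hDabs n).trans ih
      have h4 : Tendsto (fun n : ℕ => (n⁻¹ : ℝ) * (2 * |D 0|)) atTop (𝓝 0) := by
        have := (tendsto_inv_atTop_nhds_zero_nat (𝕜 := ℝ)).mul_const (2 * |D 0|)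
        simpa using this
      refine squeeze_zero_norm (fun n => ?_) h4
      rw [h3, norm_mul, Real.norm_of_nonneg (by positivity)]
      refine mul_le_mul_of_nonneg_left ?_ (by positivity)
      rw [Real.norm_eq_abs]
      calc |D 0 - D n| ≤ |D 0| + |D n| := abs_sub _ _
        _ ≤ 2 * |D 0| := by linarith [hb n]
    exact tendsto_nhds_unique h1 h2
  rw [hc0] at hst
  exact conv_of_abs hd hst

end Pool.Agent.Results.MP_0aa9c3_an.IterateDifferences
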